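import Pool.Agent.Run7.h869.MT.P9d

/-!
# Project MT457, piece P9: Tate classes are spanned by Hodge classes
-/

set_option autoImplicit false

namespace Run7.h869.MT

open Matrix Filter Topology Run7.h457.MT

noncomputable section

theorem map_skew {κ : Type} [Fintype κ] {q : Matrix κ κ ℚ} {J : Matrix κ κ ℂ}
    (h : SkewMat (q.map (algebraMap ℚ ℂ)) J) (φ : ℂ →ₗ[ℚ] ℚ) : SkewMat q (J.map φ) := by
  unfold SkewMat at h ⊢
  ext a b
  have h1 := congrFun (congrFun h a) b
  simp only [Matrix.add_apply, Matrix.mul_apply, Matrix.transpose_apply, Matrix.map_apply,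
    Matrix.zero_apply] at h1 ⊢
  have h2 := congrArg φ h1
  rw [map_add, map_sum, map_sum, map_zero] at h2
  rw [← h2]
  congr 1
  · refine Finset.sum_congr rfl fun k _ => ?_
    rw [mul_comm (J k a), ← Algebra.smul_def, map_smul, smul_eq_mul, mul_comm]
  · refine Finset.sum_congr rfl fun k _ => ?_
    rw [← Algebra.smul_def, map_smul, smul_eq_mul]

/-- The rational skew matrices. -/
def skewSub {κ : Type} [Fintype κ] (q : Matrix κ κ ℚ) : Submodule ℚ (Matrix κ κ ℚ) where
  carrier := {X | SkewMat q X}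
  zero_mem' := by simp [SkewMat]
  add_mem' := by
    intro X Y h1 h2
    simp only [Set.mem_ofPred_eq, SkewMat] at h1 h2 ⊢
    rw [Matrix.transpose_add, add_mul, mul_add]
    rw [show Xᵀ * q + Yᵀ * q + (q * X + q * Y) = (Xᵀ * q + q * X) + (Yᵀ * q + q * Y) by abel,
      h1, h2, add_zero]
  smul_mem' := by
    intro a X h1
    simp only [Set.mem_ofPred_eq, SkewMat] at h1 ⊢
    rw [Matrix.transpose_smul, smul_mul_assoc, mul_smul_comm, ← smul_add, h1, smul_zero]

theorem ext_rho_two (hSPAN : S_SPAN) {d : ℕ} (B : LLV d)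
    {J : Matrix (Fin (B.n 2)) (Fin (B.n 2)) ℂ} (hJ : SkewMat (B.q.map (algebraMap ℚ ℂ)) J) :
    Run7.h457.MT.ext ℂ (B.ρ 2) J = J := by
  have h1 : J ∈ ratSpan ℂ (skewSub B.q : Set (Matrix (Fin (B.n 2)) (Fin (B.n 2)) ℚ)) := by
    rw [hSPAN]
    exact fun φ => map_skew hJ φ
  refine Submodule.span_induction (p := fun y _ => Run7.h457.MT.ext ℂ (B.ρ 2) y = y)
    ?_ ?_ ?_ ?_ h1
  · rintro _ ⟨y, hy, rfl⟩
    simp only
    rw [ext_map, B.ρ_two y hy]
  · exact map_zero _
  · intro y z _ _ hy hz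
    rw [map_add, hy, hz]
  · intro c y _ hy
    rw [map_smul, hy]

theorem hodge_sum {κ : Type} [Fintype κ] [DecidableEq κ] {i : ℕ} (V : HodgeStr i κ) :
    V.D' = (i : ℂ) • 1 - V.D := by
  rw [eq_sub_iff_add_eq]
  unfold HodgeStr.D HodgeStr.D'
  rw [← Finset.sum_add_distrib, ← V.sum, Finset.smul_sum]
  refine Finset.sum_congr rfl fun p hp => ?_
  rw [← add_smul]
  congr 1
  have : p ≤ i := Nat.lt_succ_iff.1 (Finset.mem_range.1 hp)
  push_cast [Nat.cast_sub this]
  ring

variable {T : Type} [Fintype T] [DecidableEq T] {d : T → ℕ} (B : ∀ t, LLV (d t))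

theorem mem_mm (hSPAN : S_SPAN) (c : ℂ) {J : ∀ t, Matrix (Fin ((B t).n 2)) (Fin ((B t).n 2)) ℂ}
    (hJ : ∀ t, SkewMat ((B t).q.map (algebraMap ℚ ℂ)) (J t)) :
    blockDiagonal' (fun t => c • 1 + J t) ∈ ratSpan ℂ (mm B : Set (Matrix (II B) (II B) ℚ)) := by
  rw [hSPAN]
  intro φ
  refine ⟨fun _ => φ c, fun t => (J t).map φ, fun t => map_skew (hJ t) φ, ?_⟩
  rw [blockDiagonal'_map _ _ (map_zero φ)]
  congr 1
  funext t
  ext a b
  simp only [Matrix.map_apply, Matrix.add_apply, Matrix.smul_apply, map_add, smul_eq_mul]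
  congr 1
  rw [Matrix.one_apply, Matrix.one_apply]
  split_ifs <;> simp

variable {S : Type} [Fintype S] [DecidableEq S] (τ : S → T)

theorem EF_D (W : ∀ t, (B t).Hodge) (m : ℕ) (t₀ : T) (j : ℕ) :
    EF B τ m t₀ j ℂ (blockDiagonal' fun t => (1 : ℂ) • 1 + (W t).J) =
      dkun (n := fun s i => (B (τ s)).n i) (fun s => d (τ s)) m
        (fun s i => ((W (τ s)).V i).D) - (j : ℂ) • 1 := by
  have hq : ∀ t, ((B t).q.map (algebraMap ℚ ℂ)).det ≠ 0 := by
    intro t h
    have h1 : algebraMap ℚ ℂ (B t).q.det = 0 := by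
      rw [RingHom.map_det]
      exact h
    exact (B t).nondeg ((map_eq_zero _).1 h1)
  rw [EF_block B τ m t₀ j (fun _ => (1 : ℂ)) (fun t => trace_skew (hq t) (W t).skew), mul_one]
  congr 1
  refine dkun_congr _ _ fun s i hi => ?_
  rw [(W (τ s)).verb i hi, mul_one]

theorem EF_D' (W : ∀ t, (B t).Hodge) (t₀ : T) (j : ℕ) :
    EF B τ (2 * j) t₀ j ℂ (blockDiagonal' fun t => (1 : ℂ) • 1 + -(W t).J) =
      (j : ℂ) • 1 - dkun (n := fun s i => (B (τ s)).n i) (fun s => d (τ s)) (2 * j)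
        (fun s i => ((W (τ s)).V i).D) := by
  have hq : ∀ t, ((B t).q.map (algebraMap ℚ ℂ)).det ≠ 0 := by
    intro t h
    have h1 : algebraMap ℚ ℂ (B t).q.det = 0 := by
      rw [RingHom.map_det]
      exact h
    exact (B t).nondeg ((map_eq_zero _).1 h1)
  have htr : ∀ t, (-(W t).J).trace = 0 := fun t => by
    rw [Matrix.trace_neg, trace_skew (hq t) (W t).skew, neg_zero]
  rw [EF_block B τ (2 * j) t₀ j (fun _ => (1 : ℂ)) htr, mul_one]
  have e1 : dkun (n := fun s i => (B (τ s)).n i) (fun s => d (τ s)) (2 * j)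
        (fun s i => ((i : ℂ) / 2 * 1) • 1 + Run7.h457.MT.ext ℂ ((B (τ s)).ρ i) (-(W (τ s)).J)) =
      dkun (n := fun s i => (B (τ s)).n i) (fun s => d (τ s)) (2 * j)
        (fun s i => (i : ℂ) • 1 + (-1 : ℂ) • ((W (τ s)).V i).D) := by
    refine dkun_congr _ _ fun s i hi => ?_
    rw [(W (τ s)).verb i hi, mul_one, map_neg, smul_add, smul_smul, neg_one_smul, ← add_assoc,
      ← add_smul]
    congr 2
    ring
  rw [e1, dkun_add, dkun_smul, dkun_deg, neg_one_smul]
  push_cast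
  rw [mul_smul, two_smul]
  abel

theorem tate (hLOGEX : S_LOGEX) (hLOGFIX : S_LOGFIX) (hINV : S_INV) (hSPAN : S_SPAN)
    (hKUN : S_KUN) : S_TATE := by
  intro ℓ _ Γ _ T _ _ d hd B W G hLR hMT χ hχ hq S _ _ τ j x
  rcases isEmpty_or_nonempty T with hT | ⟨⟨t₀⟩⟩
  · have hS : IsEmpty S := ⟨fun s => hT.elim (τ s)⟩
    rcases Nat.eq_zero_or_pos j with rfl | hj
    · have h1 : ∀ σ, kunRep B G τ (2 * 0) σ = 1 := by
        intro σ
        have h := ((hKUN S (fun s i => (B (τ s)).n i) (fun s => d (τ s)) (2 * 0)).1 ℚ_[ℓ]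
          (fun s i => 1) (fun s i => 1)).2.1
        rw [← h]
        unfold kunRep
        congr 1
        funext s
        exact hS.elim s
      have h2 : dkun (n := fun s j => (B (τ s)).n j) (fun s => d (τ s)) (2 * 0)
          (fun s i => ((W (τ s)).V i).D) = 0 := by
        have h := dkun_smul (n := fun s j => (B (τ s)).n j) (fun s => d (τ s)) (2 * 0) (0 : ℂ)
          (fun s i => ((W (τ s)).V i).D)
        rw [zero_smul] at h
        rw [← h]
        congr 1
        funext s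
        exact hS.elim s
      refine iff_of_true ⟨⊤, inferInstance, fun σ _ => ?_⟩ ?_
      · rw [h1, one_mulVec, pow_zero, one_smul]
      · have e1 : x = ∑ k, x k • (fun i => algebraMap ℚ ℚ_[ℓ] ((Pi.single k (1 : ℚ) :
            KTot (fun s j => (B (τ s)).n j) (fun s => d (τ s)) (2 * 0) → ℚ) i)) := by
          funext a
          rw [Finset.sum_apply, Finset.sum_eq_single a]
          · simp
          · intro b _ hb
            simp [Pi.single_eq_of_ne hb.symm]
          · intro h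
            exact absurd (Finset.mem_univ a) h
        rw [e1]
        refine Submodule.sum_mem _ fun k _ => Submodule.smul_mem _ _ (Submodule.subset_span ?_)
        refine ⟨Pi.single k 1, ?_, rfl⟩
        simp only [Set.mem_ofPred_eq]
        rw [h2, zero_mulVec, Nat.cast_zero, zero_smul]
    · have hK : IsEmpty (KTot (fun s j => (B (τ s)).n j) (fun s => d (τ s)) (2 * j)) := by
        refine ⟨fun k => ?_⟩
        have h := k.1.2
        have h2 : ∑ s, (k.1.1 s : ℕ) = 0 := Finset.sum_eq_zero fun s _ => hS.elim s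
        omega
      refine iff_of_true ⟨⊤, inferInstance, fun σ _ => ?_⟩ ?_
      · funext k
        exact hK.elim k
      · have : x = 0 := by
          funext k
          exact hK.elim k
        rw [this]
        exact Submodule.zero_mem _
  -- the main case
  set D : Matrix (II B) (II B) ℂ := blockDiagonal' fun t => ((W t).V 2).D with hD
  set D' : Matrix (II B) (II B) ℂ := blockDiagonal' fun t => ((W t).V 2).D' with hD'
  have hDe : D = blockDiagonal' fun t => (1 : ℂ) • 1 + (W t).J := by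
    rw [hD]
    congr 1
    funext t
    rw [(W t).verb 2 (hd t), ext_rho_two hSPAN (B t) (W t).skew]
    norm_num
  have hDe' : D' = blockDiagonal' fun t => (1 : ℂ) • 1 + -(W t).J := by
    rw [hD']
    congr 1
    funext t
    rw [hodge_sum, (W t).verb 2 (hd t), ext_rho_two hSPAN (B t) (W t).skew]
    norm_num
    rw [show (2 : ℂ) • (1 : Matrix (Fin ((B t).n 2)) (Fin ((B t).n 2)) ℂ) = 1 + 1 by
      rw [two_smul]]
    abel
  have hDm : D ∈ ratSpan ℂ (mm B : Set (Matrix (II B) (II B) ℚ)) := by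
    rw [hDe]
    exact mem_mm B hSPAN 1 fun t => (W t).skew
  have hDm' : D' ∈ ratSpan ℂ (mm B : Set (Matrix (II B) (II B) ℚ)) := by
    rw [hDe']
    refine mem_mm B hSPAN 1 fun t => ?_
    have h := (W t).skew
    unfold SkewMat at h ⊢
    rw [Matrix.transpose_neg, neg_mul, mul_neg, ← neg_add, h, neg_zero]
  have hinv := hINV ℚ_[ℓ] (II B) (KTot (fun s i => (B (τ s)).n i) (fun s => d (τ s)) (2 * j))
    (mm B) (EQ B τ (2 * j) t₀ j) D D' (mm_isLie B) (EQ_lieOn B τ (2 * j) t₀ j hKUN) hDm hDm' x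
  have hset : {v : KTot (fun s i => (B (τ s)).n i) (fun s => d (τ s)) (2 * j) → ℚ |
      Run7.h457.MT.ext ℂ (EQ B τ (2 * j) t₀ j) D *ᵥ (fun i => algebraMap ℚ ℂ (v i)) = 0 ∧
      Run7.h457.MT.ext ℂ (EQ B τ (2 * j) t₀ j) D' *ᵥ (fun i => algebraMap ℚ ℂ (v i)) = 0} =
      {v | dkun (n := fun s j => (B (τ s)).n j) (fun s => d (τ s)) (2 * j)
      (fun s i => ((W (τ s)).V i).D) *ᵥ (fun k => algebraMap ℚ ℂ (v k)) =
      (j : ℂ) • fun k => algebraMap ℚ ℂ (v k)} := by
    ext v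
    simp only [Set.mem_ofPred_eq]
    rw [ext_EQ, hDe, hDe', EF_D, EF_D', sub_mulVec, sub_mulVec, smul_mulVec, one_mulVec,
      sub_eq_zero, sub_eq_zero]
    exact ⟨fun h => h.1, fun h => ⟨h, h.symm⟩⟩
  rw [hset] at hinv
  rw [← hinv]
  -- the logarithm
  obtain ⟨Δ₁, hΔ₁, hlog⟩ := hLR 2
  obtain ⟨Δ₂, hΔ₂, hchi⟩ := hχ 2
  have hχ0 : ∀ σ, χ σ ≠ 0 := by
    intro σ h
    have h1 : χ σ * χ σ⁻¹ = 1 := by rw [← map_mul, mul_inv_cancel, map_one]
    rw [h, zero_mul] at h1
    exact zero_ne_one h1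
  have key : ∀ σ ∈ Δ₁, σ ∈ Δ₂ → ∀ L : Matrix (II B) (II B) ℚ_[ℓ],
      IsLog (blockDiagonal' fun t => G t 2 σ) L →
      IsLog (χ σ ^ j • kunRep B G τ (2 * j) σ) (EF B τ (2 * j) t₀ j ℚ_[ℓ] L) := by
    intro σ h1 h2 L hL
    have hLt : ∀ t, IsLog (G t 2 σ) (L.blockDiag' t) := fun t => logBlock hL t
    have hk := (hKUN S (fun s i => (B (τ s)).n i) (fun s => d (τ s)) (2 * j)).2.1 ℓ
      (fun s i => G (τ s) i σ)
      (fun s i => Run7.h457.MT.ext ℚ_[ℓ] ((B (τ s)).R i) (L.blockDiag' (τ s)))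
      (fun s i hi => (hlog σ h1 (τ s) i hi).2 _ (hLt (τ s)))
    obtain ⟨u, hu⟩ := exists_log hLOGEX (hchi σ h2)
    have hsk := skew_log (hLt t₀) (hχ0 σ) hu (hq t₀ σ)
    have hqd : ((B t₀).q.map (algebraMap ℚ ℚ_[ℓ])).det ≠ 0 := by
      intro h
      have h1 : algebraMap ℚ ℚ_[ℓ] (B t₀).q.det = 0 := by
        rw [RingHom.map_det]
        exact h
      exact (B t₀).nondeg ((map_eq_zero _).1 h1)
    have htr := trace_of_skewlike hqd hsk
    have hn : ((B t₀).n 2 : ℚ_[ℓ]) ≠ 0 := by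
      have := (B t₀).dim
      exact_mod_cast (by omega : (B t₀).n 2 ≠ 0)
    have hs := IsLog.smul hk hu j
    have e1 : EF B τ (2 * j) t₀ j ℚ_[ℓ] L =
        dkun (n := fun s i => (B (τ s)).n i) (fun s => d (τ s)) (2 * j)
        (fun s i => Run7.h457.MT.ext ℚ_[ℓ] ((B (τ s)).R i) (L.blockDiag' (τ s))) +
        ((j : ℚ_[ℓ]) * u) • 1 := by
      change dkun (n := fun s i => (B (τ s)).n i) (fun s => d (τ s)) (2 * j)
        (fun s i => Run7.h457.MT.ext ℚ_[ℓ] ((B (τ s)).R i) (L.blockDiag' (τ s))) -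
        ((j : ℚ_[ℓ]) * ((L.blockDiag' t₀).trace / (B t₀).n 2)) • 1 = _
      rw [htr, Fintype.card_fin, neg_div, mul_div_assoc, mul_comm ((B t₀).n 2 : ℚ_[ℓ]),
        div_mul_cancel₀ u hn, mul_neg, neg_smul, sub_neg_eq_add]
    rw [e1]
    exact hs
  constructor
  · rintro ⟨Δ, hΔ, hfix⟩ y hy
    have hall : ∀ z ∈ galLie (fun σ => blockDiagonal' fun t => G t 2 σ),
        EF B τ (2 * j) t₀ j ℚ_[ℓ] z *ᵥ x = 0 := by
      intro z hz
      refine Submodule.span_induction (p := fun z _ => EF B τ (2 * j) t₀ j ℚ_[ℓ] z *ᵥ x = 0)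
        ?_ ?_ ?_ ?_ hz
      · rintro L ⟨σ, hL⟩
        obtain ⟨k, hk0, -, hk⟩ := Subgroup.exists_pow_mem_of_index_ne_zero
          (H := Δ ⊓ Δ₁ ⊓ Δ₂) Subgroup.FiniteIndex.index_ne_zero σ
        have hLk := IsLog.pow hL k
        rw [← blockDiagonal'_pow] at hLk
        have e1 : (fun t => G t 2 σ) ^ k = fun t => G t 2 (σ ^ k) := by
          funext t
          rw [Pi.pow_apply, map_pow]
        rw [e1] at hLk
        have h1 := key (σ ^ k) hk.1.2 hk.2 _ hLk
        have hfx := hfix (σ ^ k) hk.1.1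
        rw [← smul_mulVec] at hfx
        set g' := χ (σ ^ k) ^ j • kunRep B G τ (2 * j) (σ ^ k) with hg'
        have hpow : ∀ n : ℕ, (g' ^ n) *ᵥ x = x := by
          intro n
          induction n with
          | zero => rw [pow_zero, one_mulVec]
          | succ n ih => rw [pow_succ, ← mulVec_mulVec, hfx, ih]
        have hc : Continuous (fun A : Matrix (KTot (fun s i => (B (τ s)).n i)
            (fun s => d (τ s)) (2 * j)) (KTot (fun s i => (B (τ s)).n i)
            (fun s => d (τ s)) (2 * j)) ℚ_[ℓ] => A *ᵥ x) :=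
          Continuous.matrix_mulVec continuous_id continuous_const
        have h2 := (hc.tendsto _).comp h1
        have h3 : Tendsto (fun n : ℕ => (0 : KTot (fun s i => (B (τ s)).n i)
            (fun s => d (τ s)) (2 * j) → ℚ_[ℓ])) atTop
            (𝓝 (EF B τ (2 * j) t₀ j ℚ_[ℓ] ((k : ℚ_[ℓ]) • L) *ᵥ x)) := by
          refine h2.congr fun n => ?_
          simp only [Function.comp]
          rw [smul_mulVec, sub_mulVec, hpow, one_mulVec, sub_self, smul_zero]
        have h4 := tendsto_nhds_unique h3 tendsto_const_nhds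
        rw [map_smul, smul_mulVec] at h4
        have hk' : (k : ℚ_[ℓ]) ≠ 0 := by
          exact_mod_cast hk0.ne'
        exact (smul_eq_zero.1 h4).resolve_left hk'
      · rw [map_zero, zero_mulVec]
      · intro a b _ _ ha hb
        rw [map_add, add_mulVec, ha, hb, add_zero]
      · intro c a _ ha
        rw [map_smul, smul_mulVec, ha, smul_zero]
    rw [← ext_map, ext_EQ]
    refine hall _ ?_
    rw [hMT]
    exact Submodule.subset_span ⟨y, hy, rfl⟩
  · intro hx
    have hall : ∀ z ∈ galLie (fun σ => blockDiagonal' fun t => G t 2 σ),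
        EF B τ (2 * j) t₀ j ℚ_[ℓ] z *ᵥ x = 0 := by
      intro z hz
      rw [hMT] at hz
      refine Submodule.span_induction (p := fun z _ => EF B τ (2 * j) t₀ j ℚ_[ℓ] z *ᵥ x = 0)
        ?_ ?_ ?_ ?_ hz
      · rintro _ ⟨y, hy, rfl⟩
        simp only
        rw [← ext_EQ, ext_map]
        exact hx y hy
      · rw [map_zero, zero_mulVec]
      · intro a b _ _ ha hb
        rw [map_add, add_mulVec, ha, hb, add_zero]
      · intro c a _ ha
        rw [map_smul, smul_mulVec, ha, smul_zero]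
    refine ⟨Δ₁ ⊓ Δ₂, inferInstance, fun σ hσ => ?_⟩
    have hex : ∀ t, ∃ L, IsLog (G t 2 σ) L := fun t =>
      hLOGEX ℓ _ _ (hlog σ hσ.1 t 2 (hd t)).1
    choose L hL using hex
    have hB := blockLog hL
    have hE := hall _ (Submodule.subset_span ⟨σ, hB⟩)
    have h1 := key σ hσ.1 hσ.2 _ hB
    have hnear : NearOne 2 (χ σ ^ j • kunRep B G τ (2 * j) σ) := by
      refine nearOne_smul ?_ (hchi σ hσ.2) j
      exact (hKUN S (fun s i => (B (τ s)).n i) (fun s => d (τ s)) (2 * j)).2.2 ℓ 2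
        (fun s i => G (τ s) i σ) fun s i hi => (hlog σ hσ.1 (τ s) i hi).1
    have h2 := hLOGFIX ℓ _ _ _ hnear h1 x hE
    rw [smul_mulVec] at h2
    exact h2

end

end Run7.h869.MT
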