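import Pool.Agent.Run7.h457.MT.Iface2

/-!
# Project MT457, piece P9: preliminaries (logarithms of block matrices, extension of scalars)
-/

set_option autoImplicit false

namespace Run7.h869.MT

open Matrix Filter Topology Run7.h457.MT

noncomputable section

section extlem

variable {ι κ : Type} [Fintype ι] [DecidableEq ι] [Fintype κ] [DecidableEq κ]
  {F : Type} [Field F] [Algebra ℚ F]

theorem ext_map (R : Matrix ι ι ℚ →ₗ[ℚ] Matrix κ κ ℚ) (x : Matrix ι ι ℚ) :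
    ext F R (x.map (algebraMap ℚ F)) = (R x).map (algebraMap ℚ F) := by
  have hx : R x = ∑ i, ∑ j, x i j • R (Matrix.single i j 1) := by
    conv_lhs => rw [Matrix.matrix_eq_sum_single x]
    rw [map_sum]
    refine Finset.sum_congr rfl fun i _ => ?_
    rw [map_sum]
    refine Finset.sum_congr rfl fun j _ => ?_
    rw [← map_smul, Matrix.smul_single, smul_eq_mul, mul_one]
  rw [hx]
  ext a b
  simp only [Run7.h457.MT.ext, LinearMap.coe_mk, AddHom.coe_mk, Matrix.sum_apply, Matrix.map_apply,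
    Matrix.smul_apply, smul_eq_mul, map_sum, map_mul]

theorem ext_unique (R : Matrix ι ι ℚ →ₗ[ℚ] Matrix κ κ ℚ) (Φ : Matrix ι ι F →ₗ[F] Matrix κ κ F)
    (h : ∀ x : Matrix ι ι ℚ, Φ (x.map (algebraMap ℚ F)) = (R x).map (algebraMap ℚ F)) :
    ext F R = Φ := by
  have key : ∀ i j, ext F R (Matrix.single i j 1) = Φ (Matrix.single i j 1) := by
    intro i j
    have e : (Matrix.single i j (1 : F)) = (Matrix.single i j (1 : ℚ)).map (algebraMap ℚ F) := by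
      ext a b
      rw [Matrix.map_apply, Matrix.single_apply, Matrix.single_apply]
      split_ifs <;> simp
    rw [e, h, ext_map]
  refine LinearMap.ext fun A => ?_
  rw [Matrix.matrix_eq_sum_single A, map_sum, map_sum]
  refine Finset.sum_congr rfl fun i _ => ?_
  rw [map_sum, map_sum]
  refine Finset.sum_congr rfl fun j _ => ?_
  have e : (Matrix.single i j (A i j)) = (A i j) • (Matrix.single i j (1 : F)) := by
    rw [Matrix.smul_single, smul_eq_mul, mul_one]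
  rw [e, map_smul, map_smul, key]

end extlem

section logs

variable {κ : Type} [Fintype κ] [DecidableEq κ] {ℓ : ℕ} [Fact ℓ.Prime]

theorem tend_pow : Tendsto (fun n : ℕ => (ℓ : ℚ_[ℓ]) ^ n) atTop (𝓝 0) := by
  refine tendsto_pow_atTop_nhds_zero_of_norm_lt_one ?_
  exact Padic.norm_p_lt_one

theorem ell_ne : (ℓ : ℚ_[ℓ]) ≠ 0 := by
  have := (Fact.out : ℓ.Prime).ne_zero
  exact_mod_cast this

/-- If `g` has a logarithm then `g ^ (ℓ ^ n)` tends to one. -/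
theorem IsLog.tend_one {g L : Matrix κ κ ℚ_[ℓ]} (h : IsLog g L) :
    Tendsto (fun n : ℕ => g ^ ℓ ^ n) atTop (𝓝 1) := by
  have h1 : Tendsto (fun n : ℕ => (ℓ : ℚ_[ℓ]) ^ n • (((ℓ : ℚ_[ℓ]) ^ n)⁻¹ • (g ^ ℓ ^ n - 1)))
      atTop (𝓝 ((0 : ℚ_[ℓ]) • L)) := tend_pow.smul h
  have h2 : (fun n : ℕ => (ℓ : ℚ_[ℓ]) ^ n • (((ℓ : ℚ_[ℓ]) ^ n)⁻¹ • (g ^ ℓ ^ n - 1))) =
      fun n : ℕ => g ^ ℓ ^ n - 1 := by
    funext n
    rw [smul_smul, mul_inv_cancel₀ (pow_ne_zero _ ell_ne), one_smul]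
  rw [h2, zero_smul] at h1
  have h3 := h1.add_const (1 : Matrix κ κ ℚ_[ℓ])
  simpa using h3

theorem IsLog.pow {g L : Matrix κ κ ℚ_[ℓ]} (h : IsLog g L) (k : ℕ) :
    IsLog (g ^ k) ((k : ℚ_[ℓ]) • L) := by
  unfold IsLog
  have h1 : Tendsto (fun n : ℕ => (((ℓ : ℚ_[ℓ]) ^ n)⁻¹ • (g ^ ℓ ^ n - 1)) *
      ∑ i ∈ Finset.range k, (g ^ ℓ ^ n) ^ i) atTop
      (𝓝 (L * ∑ i ∈ Finset.range k, (1 : Matrix κ κ ℚ_[ℓ]) ^ i)) := by
    refine Tendsto.mul h ?_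
    refine tendsto_finsetSum _ fun i _ => ?_
    exact (IsLog.tend_one h).pow i
  have e1 : (L * ∑ i ∈ Finset.range k, (1 : Matrix κ κ ℚ_[ℓ]) ^ i) = (k : ℚ_[ℓ]) • L := by
    simp only [one_pow, Finset.sum_const, Finset.card_range, mul_smul_comm, mul_one]
    exact (Nat.cast_smul_eq_nsmul _ k L).symm
  rw [e1] at h1
  refine h1.congr fun n => ?_
  rw [smul_mul_assoc, mul_geom_sum]
  congr 2
  rw [← pow_mul, ← pow_mul, mul_comm]

/-- The logarithm of `c ^ j • M`, where `c` is near one. -/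
theorem IsLog.smul {M L : Matrix κ κ ℚ_[ℓ]} (h : IsLog M L) {c u : ℚ_[ℓ]}
    (hc : Tendsto (fun n : ℕ => ((ℓ : ℚ_[ℓ]) ^ n)⁻¹ * (c ^ ℓ ^ n - 1)) atTop (𝓝 u)) (j : ℕ) :
    IsLog (c ^ j • M) (L + ((j : ℚ_[ℓ]) * u) • 1) := by
  have hc1 : Tendsto (fun n : ℕ => c ^ ℓ ^ n) atTop (𝓝 1) := by
    have h1 : Tendsto (fun n : ℕ => (ℓ : ℚ_[ℓ]) ^ n * (((ℓ : ℚ_[ℓ]) ^ n)⁻¹ * (c ^ ℓ ^ n - 1)))
        atTop (𝓝 (0 * u)) := tend_pow.mul hc
    have h2 : (fun n : ℕ => (ℓ : ℚ_[ℓ]) ^ n * (((ℓ : ℚ_[ℓ]) ^ n)⁻¹ * (c ^ ℓ ^ n - 1))) =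
        fun n : ℕ => c ^ ℓ ^ n - 1 := by
      funext n
      rw [← mul_assoc, mul_inv_cancel₀ (pow_ne_zero _ ell_ne), one_mul]
    rw [h2, zero_mul] at h1
    have h3 := h1.add_const (1 : ℚ_[ℓ])
    simpa using h3
  have hcj : Tendsto (fun n : ℕ => ((ℓ : ℚ_[ℓ]) ^ n)⁻¹ * ((c ^ j) ^ ℓ ^ n - 1)) atTop
      (𝓝 ((j : ℚ_[ℓ]) * u)) := by
    have h1 : Tendsto (fun n : ℕ => (((ℓ : ℚ_[ℓ]) ^ n)⁻¹ * (c ^ ℓ ^ n - 1)) *
        ∑ i ∈ Finset.range j, (c ^ ℓ ^ n) ^ i) atTop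
        (𝓝 (u * ∑ i ∈ Finset.range j, (1 : ℚ_[ℓ]) ^ i)) := by
      refine Tendsto.mul hc ?_
      refine tendsto_finsetSum _ fun i _ => ?_
      exact hc1.pow i
    have e1 : (u * ∑ i ∈ Finset.range j, (1 : ℚ_[ℓ]) ^ i) = (j : ℚ_[ℓ]) * u := by
      simp [mul_comm]
    rw [e1] at h1
    refine h1.congr fun n => ?_
    rw [mul_assoc, mul_geom_sum]
    congr 2
    rw [← pow_mul, ← pow_mul, mul_comm]
  unfold IsLog
  have h1 : Tendsto (fun n : ℕ => (((ℓ : ℚ_[ℓ]) ^ n)⁻¹ * ((c ^ j) ^ ℓ ^ n - 1)) • (M ^ ℓ ^ n) +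
      ((ℓ : ℚ_[ℓ]) ^ n)⁻¹ • (M ^ ℓ ^ n - 1)) atTop (𝓝 (((j : ℚ_[ℓ]) * u) • 1 + L)) :=
    (hcj.smul (IsLog.tend_one h)).add h
  rw [add_comm] at h1
  refine h1.congr fun n => ?_
  rw [smul_pow, mul_smul, ← smul_add, sub_smul, one_smul]
  congr 1
  abel

theorem blockLog {T : Type} [Fintype T] [DecidableEq T] {n : T → Type} [∀ t, Fintype (n t)]
    [∀ t, DecidableEq (n t)] {g : ∀ t, Matrix (n t) (n t) ℚ_[ℓ]}
    {L : ∀ t, Matrix (n t) (n t) ℚ_[ℓ]} (h : ∀ t, IsLog (g t) (L t)) :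
    IsLog (blockDiagonal' g) (blockDiagonal' L) := by
  unfold IsLog
  have h1 : Tendsto (fun m : ℕ => (fun t => ((ℓ : ℚ_[ℓ]) ^ m)⁻¹ • ((g t) ^ ℓ ^ m - 1))) atTop
      (𝓝 L) := tendsto_pi_nhds.2 h
  have h2 : Continuous (fun L : ∀ t, Matrix (n t) (n t) ℚ_[ℓ] => blockDiagonal' L) :=
    Continuous.matrix_blockDiagonal' continuous_id
  have h3 := (h2.tendsto L).comp h1
  refine h3.congr fun m => ?_
  simp only [Function.comp]
  rw [← blockDiagonal'_pow, ← blockDiagonal'_one, ← blockDiagonal'_sub, ← blockDiagonal'_smul]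
  rfl

theorem logBlock {T : Type} [Fintype T] [DecidableEq T] {n : T → Type} [∀ t, Fintype (n t)]
    [∀ t, DecidableEq (n t)] {g : ∀ t, Matrix (n t) (n t) ℚ_[ℓ]}
    {L : Matrix (Σ t, n t) (Σ t, n t) ℚ_[ℓ]} (h : IsLog (blockDiagonal' g) L) (t : T) :
    IsLog (g t) (L.blockDiag' t) := by
  unfold IsLog at h ⊢
  have h2 : Continuous (fun L : Matrix (Σ t, n t) (Σ t, n t) ℚ_[ℓ] => L.blockDiag' t) := by
    refine continuous_matrix fun i j => ?_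
    simp only [blockDiag'_apply]
    exact continuous_id.matrix_elem _ _
  have h3 := (h2.tendsto L).comp h
  refine h3.congr fun m => ?_
  simp only [Function.comp]
  rw [← blockDiagonal'_pow, ← blockDiagonal'_one, ← blockDiagonal'_sub, ← blockDiagonal'_smul,
    blockDiag'_blockDiagonal']
  rfl

end logs

end

end Run7.h869.MT
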