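import Pool.Agent.Run7.h869.MT.P9a

/-!
# Project MT457, piece P9: the multiplier, and the operators `dkun`
-/

set_option autoImplicit false

namespace Run7.h869.MT

open Matrix Filter Topology Run7.h457.MT

noncomputable section

section mult

variable {κ : Type} [Fintype κ] [DecidableEq κ] {ℓ : ℕ} [Fact ℓ.Prime]

theorem norm_pow_sub_one {c : ℚ_[ℓ]} {e : ℝ} (he : e ≤ 1) (hc : ‖c - 1‖ ≤ e) (j : ℕ) :
    ‖c‖ ≤ 1 ∧ ‖c ^ j - 1‖ ≤ e := by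
  have h0 : 0 ≤ e := (norm_nonneg _).trans hc
  have h1 : ‖c‖ ≤ 1 := by
    have e1 : c = (c - 1) + 1 := by ring
    rw [e1]
    refine (Padic.nonarchimedean _ _).trans ?_
    rw [norm_one]
    exact max_le (hc.trans he) le_rfl
  refine ⟨h1, ?_⟩
  induction j with
  | zero => simpa using h0
  | succ j ih =>
    have e1 : c ^ (j + 1) - 1 = c * (c ^ j - 1) + (c - 1) := by ring
    rw [e1]
    refine (Padic.nonarchimedean _ _).trans (max_le ?_ hc)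
    rw [norm_mul]
    calc ‖c‖ * ‖c ^ j - 1‖ ≤ 1 * ‖c ^ j - 1‖ := mul_le_mul_of_nonneg_right h1 (norm_nonneg _)
      _ ≤ e := by rw [one_mul]; exact ih

theorem nearOne_smul {M : Matrix κ κ ℚ_[ℓ]} {N : ℕ} (hM : NearOne N M) {c : ℚ_[ℓ]}
    (hc : ‖c - 1‖ ≤ ((ℓ : ℝ) ^ N)⁻¹) (j : ℕ) : NearOne N (c ^ j • M) := by
  have he : ((ℓ : ℝ) ^ N)⁻¹ ≤ 1 := by
    refine inv_le_one_of_one_le₀ (one_le_pow₀ ?_)
    exact_mod_cast (Fact.out : ℓ.Prime).one_lt.le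
  have hcj := norm_pow_sub_one he hc j
  have hcn : ‖c ^ j‖ ≤ 1 := by
    rw [norm_pow]
    exact pow_le_one₀ (norm_nonneg _) hcj.1
  intro a b
  have e1 : (c ^ j • M - 1) a b = c ^ j * (M - 1) a b + (c ^ j - 1) * (1 : Matrix κ κ ℚ_[ℓ]) a b := by
    simp only [Matrix.sub_apply, Matrix.smul_apply, smul_eq_mul]
    ring
  rw [e1]
  refine (Padic.nonarchimedean _ _).trans (max_le ?_ ?_)
  · rw [norm_mul]
    calc ‖c ^ j‖ * ‖(M - 1) a b‖ ≤ 1 * ‖(M - 1) a b‖ :=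
          mul_le_mul_of_nonneg_right hcn (norm_nonneg _)
      _ ≤ _ := by rw [one_mul]; exact hM a b
  · rw [norm_mul]
    have h1 : ‖(1 : Matrix κ κ ℚ_[ℓ]) a b‖ ≤ 1 := by
      rw [Matrix.one_apply]
      split_ifs <;> simp
    calc ‖c ^ j - 1‖ * ‖(1 : Matrix κ κ ℚ_[ℓ]) a b‖ ≤ ‖c ^ j - 1‖ * 1 :=
          mul_le_mul_of_nonneg_left h1 (norm_nonneg _)
      _ ≤ _ := by rw [mul_one]; exact hcj.2

/-- A scalar near one has a logarithm. -/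
theorem exists_log (hLOGEX : S_LOGEX) {c : ℚ_[ℓ]} (hc : ‖c - 1‖ ≤ ((ℓ : ℝ) ^ 2)⁻¹) :
    ∃ u : ℚ_[ℓ], Tendsto (fun n : ℕ => ((ℓ : ℚ_[ℓ]) ^ n)⁻¹ * (c ^ ℓ ^ n - 1)) atTop (𝓝 u) := by
  obtain ⟨L, hL⟩ := hLOGEX ℓ Unit (c • 1) (by
    have h1 : NearOne 2 (1 : Matrix Unit Unit ℚ_[ℓ]) := by
      intro a b
      simp
    have := nearOne_smul h1 hc 1
    simpa using this)
  refine ⟨L () (), ?_⟩
  have h2 : Continuous (fun A : Matrix Unit Unit ℚ_[ℓ] => A () ()) :=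
    continuous_id.matrix_elem _ _
  refine ((h2.tendsto L).comp hL).congr fun n => ?_
  simp [Function.comp, smul_pow]

theorem trace_of_skewlike {q : Matrix κ κ ℚ_[ℓ]} (hq : q.det ≠ 0)
    {L : Matrix κ κ ℚ_[ℓ]} {u : ℚ_[ℓ]} (h : (2 * u) • q + Lᵀ * q + q * L = 0) :
    L.trace = -(Fintype.card κ * u) := by
  have hu : IsUnit q.det := isUnit_iff_ne_zero.2 hq
  have h1 : q⁻¹ * ((2 * u) • q + Lᵀ * q + q * L) = 0 := by rw [h, mul_zero]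
  rw [mul_add, mul_add, mul_smul_comm, Matrix.nonsing_inv_mul _ hu, ← mul_assoc q⁻¹ q L,
    Matrix.nonsing_inv_mul _ hu, one_mul] at h1
  have h2 := congrArg Matrix.trace h1
  rw [Matrix.trace_add, Matrix.trace_add, Matrix.trace_smul, Matrix.trace_one, ← mul_assoc,
    Matrix.trace_mul_comm, ← mul_assoc, Matrix.mul_nonsing_inv _ hu, one_mul,
    Matrix.trace_transpose, Matrix.trace_zero, smul_eq_mul] at h2
  have h3 : 2 * (L.trace + Fintype.card κ * u) = 0 := by linear_combination h2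
  have h4 : L.trace + Fintype.card κ * u = 0 := by
    rcases mul_eq_zero.1 h3 with h | h
    · exact absurd h two_ne_zero
    · exact h
  linear_combination h4

theorem skew_log {q g L : Matrix κ κ ℚ_[ℓ]} (hg : IsLog g L) {c u : ℚ_[ℓ]} (hc0 : c ≠ 0)
    (hc : Tendsto (fun n : ℕ => ((ℓ : ℚ_[ℓ]) ^ n)⁻¹ * (c ^ ℓ ^ n - 1)) atTop (𝓝 u))
    (h : gᵀ * q * g = (c ^ 2)⁻¹ • q) : (2 * u) • q + Lᵀ * q + q * L = 0 := by
  have hc1 : Tendsto (fun n : ℕ => c ^ ℓ ^ n) atTop (𝓝 1) := by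
    have h1 : Tendsto (fun n : ℕ => (ℓ : ℚ_[ℓ]) ^ n * (((ℓ : ℚ_[ℓ]) ^ n)⁻¹ * (c ^ ℓ ^ n - 1)))
        atTop (𝓝 (0 * u)) := tend_pow.mul hc
    have h2 : (fun n : ℕ => (ℓ : ℚ_[ℓ]) ^ n * (((ℓ : ℚ_[ℓ]) ^ n)⁻¹ * (c ^ ℓ ^ n - 1))) =
        fun n : ℕ => c ^ ℓ ^ n - 1 := by
      funext n
      rw [← mul_assoc, mul_inv_cancel₀ (pow_ne_zero _ ell_ne), one_mul]
    rw [h2, zero_mul] at h1
    have h3 := h1.add_const (1 : ℚ_[ℓ])
    simpa using h3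
  have hpow : ∀ m : ℕ, (c ^ m * c ^ m) • ((g ^ m)ᵀ * q * g ^ m) = q := by
    intro m
    induction m with
    | zero => simp
    | succ m ih =>
      have e1 : (g ^ (m + 1))ᵀ * q * g ^ (m + 1) = (g ^ m)ᵀ * (gᵀ * q * g) * g ^ m := by
        rw [pow_succ' g m, Matrix.transpose_mul]
        simp only [Matrix.mul_assoc]
      rw [e1, h, mul_smul_comm, smul_mul_assoc]
      conv_rhs => rw [← ih]
      rw [smul_smul]
      congr 1
      rw [pow_succ c m]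
      field_simp
  have h1 : Tendsto (fun n : ℕ => ((((ℓ : ℚ_[ℓ]) ^ n)⁻¹ * (c ^ ℓ ^ n - 1)) * (c ^ ℓ ^ n + 1)) •
        ((g ^ ℓ ^ n)ᵀ * q * g ^ ℓ ^ n) +
      (((ℓ : ℚ_[ℓ]) ^ n)⁻¹ • (g ^ ℓ ^ n - 1))ᵀ * q * g ^ ℓ ^ n +
      q * (((ℓ : ℚ_[ℓ]) ^ n)⁻¹ • (g ^ ℓ ^ n - 1))) atTop
      (𝓝 ((u * (1 + 1)) • ((1 : Matrix κ κ ℚ_[ℓ])ᵀ * q * 1) + Lᵀ * q * 1 + q * L)) := by
    have hg1 := IsLog.tend_one hg
    have hgt : Tendsto (fun n : ℕ => (g ^ ℓ ^ n)ᵀ) atTop (𝓝 (1 : Matrix κ κ ℚ_[ℓ])ᵀ) :=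
      ((continuous_id.matrix_transpose).tendsto _).comp hg1
    have hLt : Tendsto (fun n : ℕ => (((ℓ : ℚ_[ℓ]) ^ n)⁻¹ • (g ^ ℓ ^ n - 1))ᵀ) atTop (𝓝 Lᵀ) :=
      ((continuous_id.matrix_transpose).tendsto _).comp hg
    refine ((((hc.mul (hc1.add_const 1)).smul ((hgt.mul_const q).mul hg1))).add
      ((hLt.mul_const q).mul hg1)).add (hg.const_mul q)
  have h2 : Tendsto (fun n : ℕ => (0 : Matrix κ κ ℚ_[ℓ])) atTop
      (𝓝 ((u * (1 + 1)) • ((1 : Matrix κ κ ℚ_[ℓ])ᵀ * q * 1) + Lᵀ * q * 1 + q * L)) := by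
    refine h1.congr fun n => ?_
    have hm := hpow (ℓ ^ n)
    set a := c ^ ℓ ^ n
    set M := g ^ ℓ ^ n
    set e := ((ℓ : ℚ_[ℓ]) ^ n)⁻¹
    have e2 : (e * (a - 1) * (a + 1)) • (Mᵀ * q * M) + (e • (M - 1))ᵀ * q * M +
        q * (e • (M - 1)) = e • ((a * a) • (Mᵀ * q * M) - q) := by
      rw [show e * (a - 1) * (a + 1) = e * (a * a - 1) by ring, mul_smul, sub_smul, one_smul,
        Matrix.transpose_smul, Matrix.transpose_sub, Matrix.transpose_one, smul_mul_assoc,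
        smul_mul_assoc, mul_smul_comm, sub_mul, sub_mul, one_mul, mul_sub, mul_one]
      simp only [smul_sub]
      abel
    rw [e2, hm, sub_self, smul_zero]
  have h3 := tendsto_nhds_unique h2 tendsto_const_nhds
  rw [Matrix.transpose_one, one_mul, mul_one, mul_one] at h3
  rw [show 2 * u = u * (1 + 1) by ring]
  exact h3

end mult

end

end Run7.h869.MT
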