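import Pool.Agent.Run7.h869.MT.P9b

/-!
# Project MT457, piece P9: the operators `dkun` and the rational Lie algebra `𝔪`
-/

set_option autoImplicit false

namespace Run7.h869.MT

open Matrix Filter Topology Run7.h457.MT

noncomputable section

section dkron

variable {S : Type} [Fintype S] [DecidableEq S] {I : S → Type} [∀ s, Fintype (I s)]
  [∀ s, DecidableEq (I s)] {F : Type} [Field F]

theorem kron_update (s : S) (M : Matrix (I s) (I s) F) (u v : ∀ s, I s) :
    kron (Function.update (fun s => (1 : Matrix (I s) (I s) F)) s M) u v =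
      M (u s) (v s) * ∏ r ∈ Finset.univ.erase s, (1 : Matrix (I r) (I r) F) (u r) (v r) := by
  unfold kron
  rw [← Finset.mul_prod_erase Finset.univ _ (Finset.mem_univ s), Function.update_self]
  congr 1
  refine Finset.prod_congr rfl fun r hr => ?_
  rw [Function.update_of_ne (Finset.ne_of_mem_erase hr)]

theorem dkron_apply (A : ∀ s, Matrix (I s) (I s) F) (u v : ∀ s, I s) :
    dkron A u v = ∑ s, (A s) (u s) (v s) *
      ∏ r ∈ Finset.univ.erase s, (1 : Matrix (I r) (I r) F) (u r) (v r) := by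
  unfold dkron
  rw [Matrix.sum_apply]
  exact Finset.sum_congr rfl fun s _ => kron_update s (A s) u v

theorem dkron_add (A B : ∀ s, Matrix (I s) (I s) F) :
    dkron (fun s => A s + B s) = dkron A + dkron B := by
  ext u v
  simp only [dkron_apply, Matrix.add_apply, add_mul, Finset.sum_add_distrib]

theorem dkron_smul (c : F) (A : ∀ s, Matrix (I s) (I s) F) :
    dkron (fun s => c • A s) = c • dkron A := by
  ext u v
  simp only [dkron_apply, Matrix.smul_apply, smul_eq_mul, mul_assoc, Finset.mul_sum]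

theorem dkron_map {F' : Type} [Field F'] (φ : F →+* F') (A : ∀ s, Matrix (I s) (I s) F) :
    (dkron A).map φ = dkron (fun s => (A s).map φ) := by
  ext u v
  rw [Matrix.map_apply, dkron_apply, dkron_apply, map_sum]
  refine Finset.sum_congr rfl fun s _ => ?_
  rw [map_mul, map_prod, Matrix.map_apply]
  congr 1
  refine Finset.prod_congr rfl fun r _ => ?_
  rw [Matrix.one_apply, Matrix.one_apply]
  split_ifs <;> simp

theorem prod_one_apply (u v : ∀ s, I s) :
    ∏ r, (1 : Matrix (I r) (I r) F) (u r) (v r) = (1 : Matrix (∀ s, I s) (∀ s, I s) F) u v := by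
  rw [Matrix.one_apply]
  split_ifs with h
  · subst h
    simp
  · obtain ⟨s, hs⟩ := Function.ne_iff.1 h
    exact Finset.prod_eq_zero (Finset.mem_univ s) (Matrix.one_apply_ne hs)

theorem dkron_scal (c : S → F) :
    dkron (fun s => c s • (1 : Matrix (I s) (I s) F)) = (∑ s, c s) • 1 := by
  ext u v
  rw [dkron_apply, Matrix.smul_apply, smul_eq_mul, Finset.sum_mul]
  refine Finset.sum_congr rfl fun s _ => ?_
  rw [Matrix.smul_apply, smul_eq_mul, mul_assoc, Finset.mul_prod_erase Finset.univ
    (fun r => (1 : Matrix (I r) (I r) F) (u r) (v r)) (Finset.mem_univ s), prod_one_apply]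

end dkron

section dkun

variable {S : Type} [Fintype S] [DecidableEq S] {n : S → ℕ → ℕ} (d : S → ℕ) (i : ℕ)
  {F : Type} [Field F]

theorem dkun_congr {A B : ∀ s j, Matrix (Fin (n s j)) (Fin (n s j)) F}
    (h : ∀ s, ∀ j ≤ d s, A s j = B s j) : dkun d i A = dkun d i B := by
  unfold dkun
  congr 1
  funext a
  congr 1
  funext s
  exact h s _ (Nat.lt_succ_iff.1 (a.1 s).2)

theorem dkun_add (A B : ∀ s j, Matrix (Fin (n s j)) (Fin (n s j)) F) :
    dkun d i (fun s j => A s j + B s j) = dkun d i A + dkun d i B := by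
  unfold dkun
  rw [← blockDiagonal'_add]
  congr 1
  funext a
  exact dkron_add _ _

theorem dkun_smul (c : F) (A : ∀ s j, Matrix (Fin (n s j)) (Fin (n s j)) F) :
    dkun d i (fun s j => c • A s j) = c • dkun d i A := by
  unfold dkun
  rw [← blockDiagonal'_smul]
  congr 1
  funext a
  exact dkron_smul _ _

theorem dkun_map {F' : Type} [Field F'] (φ : F →+* F')
    (A : ∀ s j, Matrix (Fin (n s j)) (Fin (n s j)) F) :
    (dkun d i A).map φ = dkun d i (fun s j => (A s j).map φ) := by
  unfold dkun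
  rw [blockDiagonal'_map _ _ (map_zero φ)]
  congr 1
  funext a
  exact dkron_map _ _

theorem dkun_deg :
    dkun d i (fun s j => (j : F) • (1 : Matrix (Fin (n s j)) (Fin (n s j)) F)) = (i : F) • 1 := by
  unfold dkun
  rw [← blockDiagonal'_one, ← blockDiagonal'_smul]
  congr 1
  funext a
  refine (dkron_scal (fun s => ((a.1 s : ℕ) : F))).trans ?_
  rw [Pi.smul_apply, Pi.one_apply, ← Nat.cast_sum, a.2]

end dkun

section RF

variable {d : ℕ} (B : LLV d) (i : ℕ) (F : Type) [Field F] [Algebra ℚ F]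

/-- The extension of scalars of `R i`. -/
def RF : Matrix (Fin (B.n 2)) (Fin (B.n 2)) F →ₗ[F] Matrix (Fin (B.n i)) (Fin (B.n i)) F where
  toFun A := ((i : F) / 2 * (A.trace / B.n 2)) • 1 +
    Run7.h457.MT.ext F (B.ρ i) (A - (A.trace / B.n 2) • 1)
  map_add' A A' := by
    rw [Matrix.trace_add, add_div, mul_add, add_smul, add_smul]
    rw [show A + A' - ((A.trace / (B.n 2 : F)) • (1 : Matrix (Fin (B.n 2)) (Fin (B.n 2)) F) +
      (A'.trace / (B.n 2 : F)) • 1) = (A - (A.trace / (B.n 2 : F)) • 1) +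
        (A' - (A'.trace / (B.n 2 : F)) • 1) by abel, map_add]
    abel
  map_smul' c A := by
    rw [Matrix.trace_smul, smul_eq_mul, RingHom.id_apply, smul_add, ← map_smul, smul_smul,
      smul_sub, smul_smul, mul_div_assoc]
    congr 2
    ring

theorem trace_map' {κ : Type} [Fintype κ] (x : Matrix κ κ ℚ) :
    (x.map (algebraMap ℚ F)).trace = algebraMap ℚ F x.trace := by
  simp only [Matrix.trace, Matrix.diag, Matrix.map_apply, map_sum]

theorem ext_R : Run7.h457.MT.ext F (B.R i) = RF B i F := by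
  refine ext_unique _ _ fun x => ?_
  change ((i : F) / 2 * ((x.map (algebraMap ℚ F)).trace / B.n 2)) • 1 +
    Run7.h457.MT.ext F (B.ρ i) (x.map (algebraMap ℚ F) -
      ((x.map (algebraMap ℚ F)).trace / B.n 2) • 1) =
    (((i : ℚ) / 2 * (x.trace / B.n 2)) • 1 + B.ρ i (x - (x.trace / B.n 2) • 1)).map
      (algebraMap ℚ F)
  rw [trace_map', show x.map (algebraMap ℚ F) - (algebraMap ℚ F x.trace / B.n 2) •
    (1 : Matrix (Fin (B.n 2)) (Fin (B.n 2)) F) =
    (x - (x.trace / B.n 2) • 1).map (algebraMap ℚ F) from ?_, ext_map]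
  · ext a b
    simp only [Matrix.add_apply, Matrix.smul_apply, Matrix.map_apply, map_add, smul_eq_mul,
      map_mul, map_div₀, map_natCast, map_ofNat]
    congr 2
    rw [Matrix.one_apply, Matrix.one_apply]
    split_ifs <;> simp
  · ext a b
    simp only [Matrix.sub_apply, Matrix.smul_apply, Matrix.map_apply, map_sub, smul_eq_mul,
      map_mul, map_div₀, map_natCast]
    congr 2
    rw [Matrix.one_apply, Matrix.one_apply]
    split_ifs <;> simp

theorem trace_skew {κ : Type} [Fintype κ] [DecidableEq κ] {F : Type} [Field F] [CharZero F]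
    {q A : Matrix κ κ F} (hq : q.det ≠ 0) (h : SkewMat q A) : A.trace = 0 := by
  have hu : IsUnit q.det := isUnit_iff_ne_zero.2 hq
  have h1 : q⁻¹ * (Aᵀ * q + q * A) = 0 := by
    rw [show Aᵀ * q + q * A = 0 from h, mul_zero]
  rw [mul_add, ← mul_assoc q⁻¹ q A, Matrix.nonsing_inv_mul _ hu, one_mul] at h1
  have h2 := congrArg Matrix.trace h1
  rw [Matrix.trace_add, Matrix.trace_mul_comm, mul_assoc, Matrix.mul_nonsing_inv _ hu, mul_one,
    Matrix.trace_transpose, Matrix.trace_zero] at h2
  have h3 : 2 * A.trace = 0 := by linear_combination h2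
  rcases mul_eq_zero.1 h3 with h | h
  · exact absurd h two_ne_zero
  · exact h

theorem RF_scal_skew [CharZero F] (c : F) {X : Matrix (Fin (B.n 2)) (Fin (B.n 2)) F}
    (hX : X.trace = 0) :
    RF B i F (c • 1 + X) = ((i : F) / 2 * c) • 1 + Run7.h457.MT.ext F (B.ρ i) X := by
  have hn : (B.n 2 : F) ≠ 0 := by
    have := B.dim
    exact_mod_cast (by omega : B.n 2 ≠ 0)
  have ht : (c • (1 : Matrix (Fin (B.n 2)) (Fin (B.n 2)) F) + X).trace / (B.n 2 : F) = c := by
    rw [Matrix.trace_add, Matrix.trace_smul, Matrix.trace_one, hX, Fintype.card_fin, smul_eq_mul,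
      add_zero, mul_div_assoc, div_self hn, mul_one]
  change ((i : F) / 2 * ((c • (1 : Matrix (Fin (B.n 2)) (Fin (B.n 2)) F) + X).trace / B.n 2)) • 1 +
    Run7.h457.MT.ext F (B.ρ i) (c • (1 : Matrix (Fin (B.n 2)) (Fin (B.n 2)) F) + X -
      ((c • (1 : Matrix (Fin (B.n 2)) (Fin (B.n 2)) F) + X).trace / B.n 2) • 1) = _
  rw [ht, add_sub_cancel_left]

end RF

end

end Run7.h869.MT
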