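import Pool.Agent.Run7.h869.MT.P9c

/-!
# Project MT457, piece P9: the linear maps on the rational Lie algebra
-/

set_option autoImplicit false

namespace Run7.h869.MT

open Matrix Filter Topology Run7.h457.MT

noncomputable section

variable {T : Type} [Fintype T] [DecidableEq T] {d : T → ℕ} (B : ∀ t, LLV (d t))

/-- The index set of the basis of `⊕ H²(X_t)`. -/
abbrev II (B : ∀ t, LLV (d t)) : Type := Σ t, Fin ((B t).n 2)

/-- The block diagonal matrices with blocks `c + skew`. -/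
def mm : Submodule ℚ (Matrix (II B) (II B) ℚ) where
  carrier := {A | ∃ (c : T → ℚ) (X : ∀ t, Matrix (Fin ((B t).n 2)) (Fin ((B t).n 2)) ℚ),
    (∀ t, SkewMat (B t).q (X t)) ∧ A = blockDiagonal' fun t => c t • 1 + X t}
  zero_mem' := ⟨0, 0, fun t => by simp [SkewMat], by
    rw [← blockDiagonal'_zero]
    congr 1
    funext t
    simp⟩
  add_mem' := by
    rintro A A' ⟨c, X, hX, rfl⟩ ⟨c', X', hX', rfl⟩
    refine ⟨c + c', X + X', fun t => ?_, ?_⟩
    · have h1 := hX t
      have h2 := hX' t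
      unfold SkewMat at h1 h2 ⊢
      rw [Pi.add_apply, Matrix.transpose_add, add_mul, mul_add]
      rw [show (X t)ᵀ * (B t).q + (X' t)ᵀ * (B t).q + ((B t).q * X t + (B t).q * X' t) =
        ((X t)ᵀ * (B t).q + (B t).q * X t) + ((X' t)ᵀ * (B t).q + (B t).q * X' t) by abel,
        h1, h2, add_zero]
    · rw [← blockDiagonal'_add]
      congr 1
      funext t
      simp only [Pi.add_apply, add_smul]
      abel
  smul_mem' := by
    rintro a A ⟨c, X, hX, rfl⟩
    refine ⟨fun t => a * c t, fun t => a • X t, fun t => ?_, ?_⟩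
    · have h1 := hX t
      unfold SkewMat at h1 ⊢
      rw [Matrix.transpose_smul, smul_mul_assoc, mul_smul_comm, ← smul_add, h1, smul_zero]
    · rw [← blockDiagonal'_smul]
      congr 1
      funext t
      simp only [Pi.smul_apply, smul_add, smul_smul]

theorem skew_bracket {κ : Type} [Fintype κ] {F : Type} [Field F] {q X X' : Matrix κ κ F}
    (h : SkewMat q X) (h' : SkewMat q X') : SkewMat q (X * X' - X' * X) := by
  unfold SkewMat at h h' ⊢
  have e1 : Xᵀ * q = -(q * X) := eq_neg_of_add_eq_zero_left h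
  have e2 : X'ᵀ * q = -(q * X') := eq_neg_of_add_eq_zero_left h'
  rw [Matrix.transpose_sub, Matrix.transpose_mul, Matrix.transpose_mul, sub_mul, mul_assoc X'ᵀ,
    e1, mul_assoc Xᵀ, e2, mul_neg, mul_neg, ← mul_assoc, ← mul_assoc, e1, e2, mul_sub]
  simp only [neg_mul, mul_assoc]
  abel

theorem br_scal {R A : Type} [CommRing R] [Ring A] [Algebra R A] (a b : R) (x y : A) :
    (a • (1 : A) + x) * (b • 1 + y) - (b • 1 + y) * (a • 1 + x) = x * y - y * x := by
  simp only [add_mul, mul_add, smul_mul_assoc, mul_smul_comm, one_mul, mul_one, smul_add,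
    smul_smul]
  rw [mul_comm a b]
  abel

theorem br_sub {R A : Type} [CommRing R] [Ring A] [Algebra R A] (a b : R) (x y : A) :
    (x - a • (1 : A)) * (y - b • 1) - (y - b • 1) * (x - a • 1) = x * y - y * x := by
  rw [show x - a • (1 : A) = (-a) • 1 + x by rw [neg_smul]; abel,
    show y - b • (1 : A) = (-b) • 1 + y by rw [neg_smul]; abel, br_scal]

omit [Fintype T] in
theorem mm_bracket (c c' : T → ℚ) (X X' : ∀ t, Matrix (Fin ((B t).n 2)) (Fin ((B t).n 2)) ℚ) (t : T) :
    (c t • (1 : Matrix (Fin ((B t).n 2)) (Fin ((B t).n 2)) ℚ) + X t) * (c' t • 1 + X' t) -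
      (c' t • 1 + X' t) * (c t • 1 + X t) = X t * X' t - X' t * X t := br_scal _ _ _ _

theorem mm_isLie : IsLie (mm B) := by
  rintro A ⟨c, X, hX, rfl⟩ A' ⟨c', X', hX', rfl⟩
  refine ⟨0, fun t => X t * X' t - X' t * X t, fun t => skew_bracket (hX t) (hX' t), ?_⟩
  rw [← blockDiagonal'_mul, ← blockDiagonal'_mul, ← blockDiagonal'_sub]
  congr 1
  funext t
  rw [Pi.sub_apply, mm_bracket B c c' X X' t, Pi.zero_apply, zero_smul, zero_add]

variable {S : Type} [Fintype S] [DecidableEq S] (τ : S → T) (m : ℕ) (t₀ : T) (j : ℕ)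

/-- The map `E'` over a field. -/
def EF (F : Type) [Field F] [Algebra ℚ F] : Matrix (II B) (II B) F →ₗ[F]
    Matrix (KTot (fun s i => (B (τ s)).n i) (fun s => d (τ s)) m)
      (KTot (fun s i => (B (τ s)).n i) (fun s => d (τ s)) m) F where
  toFun A := dkun (n := fun s i => (B (τ s)).n i) (fun s => d (τ s)) m
      (fun s i => Run7.h457.MT.ext F ((B (τ s)).R i) (A.blockDiag' (τ s))) -
    ((j : F) * ((A.blockDiag' t₀).trace / (B t₀).n 2)) • 1
  map_add' A A' := by
    have e1 : ∀ t, (A + A').blockDiag' t = A.blockDiag' t + A'.blockDiag' t := fun t => by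
      rw [Matrix.blockDiag'_add]; rfl
    simp only [e1, map_add]
    rw [dkun_add, Matrix.trace_add, add_div, mul_add, add_smul]
    abel
  map_smul' c A := by
    have e1 : ∀ t, (c • A).blockDiag' t = c • A.blockDiag' t := fun t => by
      rw [Matrix.blockDiag'_smul]; rfl
    simp only [e1, map_smul]
    rw [dkun_smul, Matrix.trace_smul, RingHom.id_apply, smul_sub, smul_smul]
    congr 2
    rw [smul_eq_mul]
    ring

/-- The map `E'` over `ℚ`. -/
def EQ : Matrix (II B) (II B) ℚ →ₗ[ℚ]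
    Matrix (KTot (fun s i => (B (τ s)).n i) (fun s => d (τ s)) m)
      (KTot (fun s i => (B (τ s)).n i) (fun s => d (τ s)) m) ℚ where
  toFun A := dkun (n := fun s i => (B (τ s)).n i) (fun s => d (τ s)) m
      (fun s i => (B (τ s)).R i (A.blockDiag' (τ s))) -
    ((j : ℚ) * ((A.blockDiag' t₀).trace / (B t₀).n 2)) • 1
  map_add' A A' := by
    have e1 : ∀ t, (A + A').blockDiag' t = A.blockDiag' t + A'.blockDiag' t := fun t => by
      rw [Matrix.blockDiag'_add]; rfl
    simp only [e1, map_add]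
    rw [dkun_add, Matrix.trace_add, add_div, mul_add, add_smul]
    abel
  map_smul' c A := by
    have e1 : ∀ t, (c • A).blockDiag' t = c • A.blockDiag' t := fun t => by
      rw [Matrix.blockDiag'_smul]; rfl
    simp only [e1, map_smul]
    rw [dkun_smul, Matrix.trace_smul, RingHom.id_apply, smul_sub, smul_smul]
    congr 2
    rw [smul_eq_mul]
    ring

theorem ext_EQ (F : Type) [Field F] [Algebra ℚ F] :
    Run7.h457.MT.ext F (EQ B τ m t₀ j) = EF B τ m t₀ j F := by
  refine ext_unique _ _ fun x => ?_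
  change dkun (n := fun s i => (B (τ s)).n i) (fun s => d (τ s)) m
      (fun s i => Run7.h457.MT.ext F ((B (τ s)).R i) ((x.map (algebraMap ℚ F)).blockDiag' (τ s))) -
    ((j : F) * (((x.map (algebraMap ℚ F)).blockDiag' t₀).trace / (B t₀).n 2)) • 1 =
    (dkun (n := fun s i => (B (τ s)).n i) (fun s => d (τ s)) m
      (fun s i => (B (τ s)).R i (x.blockDiag' (τ s))) -
    ((j : ℚ) * ((x.blockDiag' t₀).trace / (B t₀).n 2)) • 1).map (algebraMap ℚ F)
  have e1 : ∀ t, (x.map (algebraMap ℚ F)).blockDiag' t =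
      (x.blockDiag' t).map (algebraMap ℚ F) := fun t => by
    rw [Matrix.blockDiag'_map]
  simp only [e1, ext_map]
  rw [trace_map', Matrix.map_sub _ (map_sub (algebraMap ℚ F)), dkun_map]
  congr 1
  ext a b
  simp only [Matrix.smul_apply, Matrix.map_apply, smul_eq_mul, map_mul, map_div₀, map_natCast]
  congr 1
  rw [Matrix.one_apply, Matrix.one_apply]
  split_ifs <;> simp

/-- The value of `EF` on a block diagonal matrix with blocks `c + skew`. -/
theorem EF_block {F : Type} [Field F] [Algebra ℚ F] [CharZero F] (c : T → F)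
    {X : ∀ t, Matrix (Fin ((B t).n 2)) (Fin ((B t).n 2)) F} (hX : ∀ t, (X t).trace = 0) :
    EF B τ m t₀ j F (blockDiagonal' fun t => c t • 1 + X t) =
      dkun (n := fun s i => (B (τ s)).n i) (fun s => d (τ s)) m
        (fun s i => ((i : F) / 2 * c (τ s)) • 1 + Run7.h457.MT.ext F ((B (τ s)).ρ i) (X (τ s))) -
      ((j : F) * c t₀) • 1 := by
  have hn : ((B t₀).n 2 : F) ≠ 0 := by
    have := (B t₀).dim
    exact_mod_cast (by omega : (B t₀).n 2 ≠ 0)
  change dkun (n := fun s i => (B (τ s)).n i) (fun s => d (τ s)) m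
      (fun s i => Run7.h457.MT.ext F ((B (τ s)).R i)
        ((blockDiagonal' fun t => c t • (1 : Matrix (Fin ((B t).n 2)) (Fin ((B t).n 2)) F) +
          X t).blockDiag' (τ s))) -
    ((j : F) * (((blockDiagonal' fun t => c t • (1 : Matrix (Fin ((B t).n 2)) (Fin ((B t).n 2)) F) +
          X t).blockDiag' t₀).trace / (B t₀).n 2)) • 1 = _
  rw [blockDiag'_blockDiagonal']
  congr 1
  · congr 1
    funext s i
    rw [ext_R, RF_scal_skew _ _ _ _ (hX _)]
  · rw [Matrix.trace_add, Matrix.trace_smul, Matrix.trace_one, hX, Fintype.card_fin, smul_eq_mul,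
      add_zero, mul_div_assoc, div_self hn, mul_one]

theorem EQ_block (c : T → ℚ)
    {X : ∀ t, Matrix (Fin ((B t).n 2)) (Fin ((B t).n 2)) ℚ} (hX : ∀ t, (X t).trace = 0) :
    EQ B τ m t₀ j (blockDiagonal' fun t => c t • 1 + X t) =
      dkun (n := fun s i => (B (τ s)).n i) (fun s => d (τ s)) m
        (fun s i => ((i : ℚ) / 2 * c (τ s)) • 1 + (B (τ s)).ρ i (X (τ s))) -
      ((j : ℚ) * c t₀) • 1 := by
  have hn : ((B t₀).n 2 : ℚ) ≠ 0 := by
    have := (B t₀).dim
    exact_mod_cast (by omega : (B t₀).n 2 ≠ 0)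
  have ht : ∀ t, (c t • (1 : Matrix (Fin ((B t).n 2)) (Fin ((B t).n 2)) ℚ) + X t).trace /
      ((B t).n 2 : ℚ) = c t := by
    intro t
    have hn : ((B t).n 2 : ℚ) ≠ 0 := by
      have := (B t).dim
      exact_mod_cast (by omega : (B t).n 2 ≠ 0)
    rw [Matrix.trace_add, Matrix.trace_smul, Matrix.trace_one, hX, Fintype.card_fin, smul_eq_mul,
      add_zero, mul_div_assoc, div_self hn, mul_one]
  change dkun (n := fun s i => (B (τ s)).n i) (fun s => d (τ s)) m
      (fun s i => (B (τ s)).R i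
        ((blockDiagonal' fun t => c t • (1 : Matrix (Fin ((B t).n 2)) (Fin ((B t).n 2)) ℚ) +
          X t).blockDiag' (τ s))) -
    ((j : ℚ) * (((blockDiagonal' fun t => c t • (1 : Matrix (Fin ((B t).n 2)) (Fin ((B t).n 2)) ℚ) +
          X t).blockDiag' t₀).trace / (B t₀).n 2)) • 1 = _
  rw [blockDiag'_blockDiagonal']
  congr 1
  · congr 1
    funext s i
    change ((i : ℚ) / 2 * ((c (τ s) • (1 : Matrix (Fin ((B (τ s)).n 2)) (Fin ((B (τ s)).n 2)) ℚ) +
      X (τ s)).trace / (B (τ s)).n 2)) • 1 + (B (τ s)).ρ i (c (τ s) • 1 + X (τ s) -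
      ((c (τ s) • (1 : Matrix (Fin ((B (τ s)).n 2)) (Fin ((B (τ s)).n 2)) ℚ) +
        X (τ s)).trace / (B (τ s)).n 2) • 1) = _
    rw [ht, add_sub_cancel_left]
  · rw [ht]

theorem EQ_lieOn (hKUN : S_KUN) : LieOn (mm B) (EQ B τ m t₀ j) := by
  rintro A ⟨c, X, hX, rfl⟩ A' ⟨c', X', hX', rfl⟩
  have hb : blockDiagonal' (fun t => c t • (1 : Matrix (Fin ((B t).n 2)) (Fin ((B t).n 2)) ℚ) +
      X t) * blockDiagonal' (fun t => c' t • 1 + X' t) -
      blockDiagonal' (fun t => c' t • 1 + X' t) * blockDiagonal' (fun t => c t • 1 + X t) =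
      blockDiagonal' fun t => (0 : T → ℚ) t • 1 + (X t * X' t - X' t * X t) := by
    rw [← blockDiagonal'_mul, ← blockDiagonal'_mul, ← blockDiagonal'_sub]
    congr 1
    funext t
    rw [Pi.sub_apply, mm_bracket B c c' X X' t, Pi.zero_apply, zero_smul, zero_add]
  have htr : ∀ {X : ∀ t, Matrix (Fin ((B t).n 2)) (Fin ((B t).n 2)) ℚ},
      (∀ t, SkewMat (B t).q (X t)) → ∀ t, (X t).trace = 0 :=
    fun h t => trace_skew (B t).nondeg (h t)
  rw [hb, EQ_block B τ m t₀ j _ (htr fun t => skew_bracket (hX t) (hX' t)),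
    EQ_block B τ m t₀ j _ (htr hX), EQ_block B τ m t₀ j _ (htr hX')]
  have hk := ((hKUN S (fun s i => (B (τ s)).n i) (fun s => d (τ s)) m).1 ℚ
    (fun s i => ((i : ℚ) / 2 * c (τ s)) • 1 + (B (τ s)).ρ i (X (τ s)))
    (fun s i => ((i : ℚ) / 2 * c' (τ s)) • 1 + (B (τ s)).ρ i (X' (τ s)))).2.2
  set P := dkun (n := fun s i => (B (τ s)).n i) (fun s => d (τ s)) m
    (fun s i => ((i : ℚ) / 2 * c (τ s)) • 1 + (B (τ s)).ρ i (X (τ s)))
  set Q := dkun (n := fun s i => (B (τ s)).n i) (fun s => d (τ s)) m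
    (fun s i => ((i : ℚ) / 2 * c' (τ s)) • 1 + (B (τ s)).ρ i (X' (τ s)))
  have e1 : dkun (n := fun s i => (B (τ s)).n i) (fun s => d (τ s)) m
        (fun s i => ((i : ℚ) / 2 * (0 : T → ℚ) (τ s)) • 1 +
          (B (τ s)).ρ i (X (τ s) * X' (τ s) - X' (τ s) * X (τ s))) = P * Q - Q * P := by
    rw [← hk]
    refine dkun_congr _ _ fun s i hi => ?_
    rw [Pi.zero_apply, mul_zero, zero_smul, zero_add, (B (τ s)).bracket i hi _ _ (hX _) (hX' _)]
    exact (br_scal _ _ _ _).symm
  rw [e1, Pi.zero_apply, mul_zero, zero_smul, sub_zero, br_sub]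

end

end Run7.h869.MT
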